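import Pool.Agent.W877.Sq.Local

/-!
# Countable-width square at `ω₂` and simultaneous reflection

Negative answer to Q1, in a local form: let `C` be a coherent sequence of length `ω₂` with
`|C_α| ≤ ℵ₁` for all `α` and without a thread, and let `S ⊆ ω₂` be a stationary set such that
`C_α` is countable for `α ∈ S`.  Then some countable family of stationary subsets of `S` does not
reflect simultaneously.  In particular `□(ω₂, ω)` refutes `Refl(ℵ₀, S^{ω₂}_ω)` in ZFC.
-/

set_option autoImplicit false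
set_option linter.deprecated false

universe u

open Cardinal

namespace Pool.Agent.Results.MP_ace702_lc.NotBothAtOmegaTwo

open Pool.Agent.W877.Sq

/-- The set of all ordinals below `ω₂` of countable cofinality. -/
def Somega : Set Ordinal.{u} := {α | α < (ℵ_ 2).ord ∧ α.cof = ℵ₀}

theorem reg_two : (ℵ_ 2 : Cardinal.{u}).IsRegular := by
  have := isRegular_aleph_add_one (1 : Ordinal.{u})
  rwa [one_add_one_eq_two] at this

theorem succ_zero_eq : Order.succ (ℵ₀ : Cardinal.{u}) = ℵ_ 1 := by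
  rw [← aleph_zero, ← aleph_succ, Ordinal.succ_zero]

theorem one_lt_two' : (ℵ_ 1 : Cardinal.{u}) < ℵ_ 2 := aleph_lt_aleph.2 one_lt_two

theorem stat_Somega : IsStationaryIn (Somega.{u}) (ℵ_ 2).ord := by
  refine ⟨fun α h => h.1, fun c hc => ?_⟩
  have hlim : Order.IsSuccLimit (ℵ_ 2 : Cardinal.{u}).ord := by
    rw [← Ordinal.aleph0_le_cof, reg_two.cof_ord]
    exact reg_two.aleph0_le
  have hnext : ∀ y : Set.Iio (ℵ_ 2 : Cardinal.{u}).ord,
      ∃ z : Set.Iio (ℵ_ 2 : Cardinal.{u}).ord, z.1 ∈ c ∧ y.1 < z.1 := by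
    intro y
    have hs : y.1 + 1 < (ℵ_ 2 : Cardinal.{u}).ord := hlim.add_one_lt y.2
    obtain ⟨z, hz, h⟩ := hc.2.1 _ hs
    exact ⟨⟨z, hc.1 hz⟩, hz, lt_of_lt_of_le (lt_add_one _) h⟩
  choose f hf1 hf2 using hnext
  have h0 : (0 : Ordinal.{u}) < (ℵ_ 2).ord := reg_two.ord_pos
  let s : ℕ → Set.Iio (ℵ_ 2 : Cardinal.{u}).ord := fun n => f^[n] (f ⟨0, h0⟩)
  have hs : ∀ n, (s n).1 < (s (n + 1)).1 := fun n => by
    simp only [s, Function.iterate_succ_apply']
    exact hf2 _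
  have hsc : ∀ n, (s n).1 ∈ c := fun n => by
    cases n with
    | zero => exact hf1 _
    | succ n =>
      simp only [s, Function.iterate_succ_apply']
      exact hf1 _
  have hmono : StrictMono fun n => (s n).1 := strictMono_nat_of_lt_succ hs
  have hsup : (⨆ n, (s n).1) < (ℵ_ 2 : Cardinal.{u}).ord := by
    apply Ordinal.lift_iSup_lt_of_lt_cof
    · rw [Ordinal.lift_id'.{0, u}, reg_two.cof_ord]
      simp
    · exact fun n => (s n).2
  refine ⟨⨆ n, (s n).1, ⟨hsup, ?_⟩, ?_⟩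
  · have := Ordinal.lift_cof_iSup hmono
    simpa using this
  · apply hc.2.2 (Set.range fun n => (s n).1)
    · rintro _ ⟨n, rfl⟩
      exact hsc n
    · exact ⟨_, 0, rfl⟩
    · exact hsup

theorem result :
    (∀ C : Ordinal.{u} → Set (Set Ordinal.{u}), IsCoherentSeq (ℵ_ 2) (ℵ_ 2) C →
      (¬ ∃ D, IsThread (ℵ_ 2) C D) → ∀ S : Set Ordinal.{u}, IsStationaryIn S (ℵ_ 2).ord →
        (∀ α ∈ S, (C α).Countable) → ¬ ReflLt (ℵ_ 2) (ℵ_ 1) S) ∧
    (SquareLt.{u} (ℵ_ 2) (ℵ_ 1) → ¬ ReflLt (ℵ_ 2) (ℵ_ 1) Somega.{u}) := by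
  have key : ∀ C : Ordinal.{u} → Set (Set Ordinal.{u}), IsCoherentSeq (ℵ_ 2) (ℵ_ 2) C →
      (¬ ∃ D, IsThread (ℵ_ 2) C D) → ∀ S : Set Ordinal.{u}, IsStationaryIn S (ℵ_ 2).ord →
        (∀ α ∈ S, (C α).Countable) → ¬ ReflLt (ℵ_ 2) (ℵ_ 1) S := by
    intro C hC hno S hS hcount hR
    apply hno
    refine thread_of_refl_local (nu := ℵ₀) le_rfl ?_ reg_two hC hS ?_ ?_
    · rw [succ_zero_eq]
      exact one_lt_two'
    · intro α hα
      rw [lift_aleph0, le_aleph0_iff_set_countable]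
      exact hcount α hα
    · rw [succ_zero_eq]
      exact hR
  refine ⟨key, ?_⟩
  rintro ⟨C, hC, hno⟩
  refine key C ⟨hC.nonempty, hC.club, ?_, hC.coherent⟩ hno _ stat_Somega ?_
  · intro α hα
    exact (hC.width α hα).trans (Cardinal.lift_lt.2 one_lt_two')
  · intro α hα
    have h := hC.width α hα.1
    rw [← succ_zero_eq, Cardinal.lift_succ, lift_aleph0, Order.lt_succ_iff,
      le_aleph0_iff_set_countable] at h
    exact h

end Pool.Agent.Results.MP_ace702_lc.NotBothAtOmegaTwo
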